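import Pool.Agent.Run7.h197.N.FC

/-!
# MP_2738db_nt: solutions in which two exponents have a common factor

Let `A`, `B` be nonzero integers. We consider `A x^m + B y^n = u z^r` in coprime integers `x`, `y`, where
`u` is composed of the primes of a finite set `S` (`u = ± 1` for the Fermat-Catalan equation, with
`A = B = 1` or `A = 1`, `B = -1`, according to the place of the power `z^r`), and a common factor `d`
of `m` and `n`.

**Theorem.** (1) Let `d ≥ 2`, let `P` be a finite set of algebraic numbers and `δ > 0`. If `d = 2` let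
`A a^2 + B ≠ 0` for all `a ∈ P`. There is `r₀` such that the equation has only finitely many value
triples `(x^m, y^n, u z^r)` with exponents `m`, `n` divisible by `d`, ANY exponent `r ≥ r₀`, `y z ≠ 0`
and `x^(m/d) / y^(n/d)` close to a point `a` of `P ∪ {∞}`: with `X = x^(m/d)`, `Y = y^(n/d)` and
`H = max(|X|, |Y|)`, `|X/Y - a| ≤ H^(-δ)`, or `|X/Y| ≥ H^δ` for `a = ∞` (`δ = 1/M`).

(2) For every `ε > 0` there is `d₀` such that for all `d ≥ d₀`, all exponents `m`, `n` divisible by
`d` and all integers `x`, `y` (coprime or not) with `A x^m + B y^n ≠ 0`: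
`|A x^m + B y^n| ≥ max(|x^m|, |y^n|)^(1 - ε)` (`ε = 1/N`).

For `P = ∅` the condition in (1) is `|y^n| ≤ |x^m|^(1 - δ')`; for `P = {0}` it is
`|x^m| ≤ |y^n|^(1 - δ')`; for `d ≥ 3` we may take the zeros of `A X^d + B`, and then the
condition is that the third term is small: `|u z^r| ≤ max(|x^m|, |y^n|)^(1 - δ')`. So (1) implies:
the solutions with `d ∣ m`, `d ∣ n`, `r ≥ r₀` in which one of the three terms is smaller than the others
by a power of the height are finite in number (for `d = 2` the third term is not included), and also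
those for which the quotient is close to any other algebraic number. For `d ≥ 3` the exponents
`4 ≤ r < r₀` can be treated with the theorem of Darmon and Granville (it is applied to the
signatures `(d, d, r)`; not used here), which gives the finiteness for all `r ≥ 4` together.
For `d = 2` there are infinitely many solutions for each `r` without the condition (`m = n = 2`).

Proof of (1): the orders of `A (X/Y)^d + B` at the primes outside a finite set are divisible by `r` if
they are positive. So, in the splitting field, the positive orders of `X/Y - α` and `X/Y - α'` are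
divisible by `r` outside a finite set of places, for two zeros `α`, `α'` different from `a`. After a
Moebius transformation which takes `a` to infinity the quotient of the two is close to `1`, and it is
the product of an `r`-th power and of powers of fixed numbers; for large `r` this contradicts the
lower bounds for linear forms in logarithms which are sharp in one of the heights
(`Run7.h197.BK`, `Run7.h197.Q`, `Run7.h197.N`). (2) follows from them, too.
-/

set_option autoImplicit false

namespace Pool.Agent.Results.MP_2738db_nt.CommonFactor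

/-- `X / Y` is close to the point `a` of the projective line (`none` is the point at infinity):
`|X/Y - a| ≤ H^(-1/M)`, or `|X/Y| ≥ H^(1/M)`, where `H = max(|X|, |Y|)`. -/
def Near (M : ℕ) (X Y : ℤ) : Option ℂ → Prop
  | none => max |(X : ℝ)| |(Y : ℝ)| * |(Y : ℝ)| ^ M ≤ |(X : ℝ)| ^ M
  | some a => max |(X : ℝ)| |(Y : ℝ)| * ‖(X : ℂ) - a * (Y : ℂ)‖ ^ M ≤ |(Y : ℝ)| ^ M

/-- **Generalised Fermat equations in which two exponents have a common factor.** -/
theorem result (A B : ℤ) (hA : A ≠ 0) (hB : B ≠ 0) :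
    -- (1)
    (∀ d : ℕ, 2 ≤ d → ∀ q : ℕ, q ≠ 0 → ∀ P : Finset ℂ, (∀ a ∈ P, IsAlgebraic ℚ a) →
      (3 ≤ d ∨ ∀ a ∈ P, (A : ℂ) * a ^ d + B ≠ 0) → ∀ M : ℕ,
      ∃ r₀ : ℕ, {T : ℤ × ℤ × ℤ | ∃ (x y z u : ℤ) (m n r k : ℕ), r₀ ≤ r ∧ IsCoprime x y ∧ y ≠ 0 ∧
        z ≠ 0 ∧ u ∣ (q : ℤ) ^ k ∧ A * x ^ (d * m) + B * y ^ (d * n) = u * z ^ r ∧
        (∃ a : Option ℂ, (∀ b, a = some b → b ∈ P) ∧ Near M (x ^ m) (y ^ n) a) ∧
          T = (x ^ (d * m), y ^ (d * n), u * z ^ r)}.Finite) ∧
    -- (2)
    (∀ N : ℕ, ∃ d₀ : ℕ, ∀ d, d₀ ≤ d → ∀ (x y : ℤ) (m n : ℕ),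
      A * x ^ (d * m) + B * y ^ (d * n) ≠ 0 →
        (max (|(x : ℝ)| ^ (d * m)) (|(y : ℝ)| ^ (d * n))) ^ (N - 1) ≤
          |((A * x ^ (d * m) + B * y ^ (d * n) : ℤ) : ℝ)| ^ N) := by
  constructor
  · intro d hd q hq P hP hP2 M
    obtain ⟨r₀, hfin⟩ := Run7.h197.N.fc_large d hd A B hA hB q hq P hP hP2 M
    refine ⟨r₀, hfin.subset ?_⟩
    rintro T ⟨x, y, z, u, m, n, r, k, hr, hc, hy, hz, hu, heq, ⟨a, haP, hn⟩, rfl⟩
    refine ⟨x ^ m, y ^ n, z, u, r, k, hr, hc.pow, pow_ne_zero _ hy, hz, hu, ?_, ⟨a, haP, ?_⟩, ?_⟩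
    · rw [← pow_mul, ← pow_mul, mul_comm m d, mul_comm n d]
      exact heq
    · rcases a with _ | a <;> exact hn
    · rw [← pow_mul, ← pow_mul, mul_comm m d, mul_comm n d]
  · intro N
    obtain ⟨d₀, h⟩ := Run7.h197.N.fc_size A B hA hB N
    refine ⟨d₀, fun d hd x y m n hne => ?_⟩
    have e : ∀ (w : ℤ) (i : ℕ), w ^ (d * i) = (w ^ i) ^ d := fun w i => by
      rw [← pow_mul, mul_comm]
    have h1 := h d hd (x ^ m) (y ^ n) (by rw [← e, ← e]; exact hne)
    rw [← e, ← e] at h1
    refine le_trans (le_of_eq ?_) h1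
    congr 1
    push_cast
    rw [abs_pow, abs_pow, mul_comm d m, mul_comm d n, pow_mul, pow_mul]
    rcases le_total (|(x : ℝ)| ^ m) (|(y : ℝ)| ^ n) with h2 | h2
    · rw [max_eq_right h2, max_eq_right (pow_le_pow_left₀ (by positivity) h2 d)]
    · rw [max_eq_left h2, max_eq_left (pow_le_pow_left₀ (by positivity) h2 d)]

end Pool.Agent.Results.MP_2738db_nt.CommonFactor
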