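import Pool.Agent.Run7.h430.TW.PairsD

/-!
# The Fermat-Catalan equation for almost all pairs of orbits of Euler's function: all exponents, all third bases

Let `φ_k` be the `k`-th iterate of Euler's function, `φ_0(m) = m`. Let `f`, `g` be positive multiplicative functions of at most
polynomial growth such that `f p ≤ M p` for the large primes `p`, with different values at different large primes; for example
the identity, Euler's function or the sum of the divisors.

**Theorem.** (3) There is `K(m)` tending to infinity such that for 100% of the pairs `(m, m')` of positive integers (in every box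
`[1, N] × [1, N']` with large sides, of any shape) the following holds with `K = K(min (m, m'))`, for ALL
`A = a f(φ_k(m)) + h` and `B = b g(φ_l(m')) + h'` with `k, l, a, b, |h|, |h'| ≤ K`, such that `A` and `B` are coprime, not both
odd, and `B^(1/K) ≤ A ≤ B^K`: NONE of the equations

`A^x + B^y = C^z`, `A^x + C^z = B^y`, `B^y + C^z = A^x`

has a solution in positive integers `x`, `y`, `C` and `z ≥ 2`. All exponents and the third base are free (and `x = 1`, `y = 1` are
allowed). If `A` and `B` are both odd there is no solution with `min (x, y) ≤ exp ((log A)^K)`.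

(2) For every `L` there is `c > 0` with the following property. Let `F`, `G` have steps bounded below by positive constants and
growth at most `v^d`, `v^d'`, and let `κ ≥ 0`, `d (1 - c) + κ < 1`, `d' (1 - c) + κ < 1` (for example `F v = α v`, `G v = β v`
and `κ < c`). There is `K(m)` tending to infinity such that for 100% of the pairs `(m, m')`, for all
`k, l ≤ K(min (m, m'))`, with `v = f(φ_k(m))`, `w = g(φ_l(m'))`, ALL coprime pairs `(A, B)` of integers in the windows
`|A - F v| ≤ v^κ`, `|B - G w| ≤ w^κ` with `A ≤ B^L`, `B ≤ A^L` have no solution `(x, y, z, C)` of one of the three equations for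
which `A B` is even, or `A B` has a prime factor `r ≤ (A B)^(1 / (40 (L + 2)))`, or `min (x, y) ≤ exp ((log A)^L)`.

(1) One orbit: for almost all `m`, for all `k ≤ K(m)` and ALL `A` in the window around `F v`: for all `Y` at most
`2 Y^(1 - c)` integers `B ≤ Y` with `A ≤ B^L`, `B ≤ A^L` form such a solution with `A`.

The iterates of Euler's function are not multiplicative, their values form a thin set and are taken with very large
multiplicities, so this does not follow from a theorem on almost all pairs of bases. Since all `φ_k(m) > 1` are even, the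
shifts are needed for coprimality.

Proof. By the power saving for pairs in boxes (`PowerSavingPairs` of this problem, starting files) the integers `A` with
many bad `B` at some scale have a power saving, and for the other `A` the bad `B` have a power saving which is uniform in `A`;
so the union of the bad `B` over all `A` in a short window has one too, and one can take `B` along the second orbit with an
exceptional set uniform in the first. For this the tool `N760/IT` (starting files) is used in the uniform form of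
`Run7/h430/TW/Unif`. See `Run7/h430/TW/Pairs{A,B,C,D}`.
-/

set_option autoImplicit false

namespace Pool.Agent.Results.MP_2738db_nt.PairsOfOrbits

open Finset Filter Topology

/-- `(x, y, z, C)` is a solution with the bases `A` and `B` -/
def Solves (A B x y z C : ℕ) : Prop :=
  0 < x ∧ 0 < y ∧ 2 ≤ z ∧ 0 < C ∧
    (A ^ x + B ^ y = C ^ z ∨ A ^ x + C ^ z = B ^ y ∨ B ^ y + C ^ z = A ^ x)

/-- `A` and `B` are coprime, `A ≤ B ^ L`, `B ≤ A ^ L`, and they are bases of a solution such that `A B` is even, or `A B` has a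
prime factor `r` with `r ^ (40 (L + 2)) ≤ A B`, or one of the two exponents is at most `exp ((log A) ^ L)` -/
def Bad (L A B : ℕ) : Prop :=
  Nat.Coprime A B ∧ A ≤ B ^ L ∧ B ≤ A ^ L ∧ ∃ x y z C : ℕ, Solves A B x y z C ∧
    (2 ∣ A * B ∨ (∃ r : ℕ, r.Prime ∧ r ∣ A * B ∧ r ^ (40 * (L + 2)) ≤ A * B) ∨
      ((min x y : ℕ) : ℝ) ≤ Real.exp (Real.log A ^ L))

/-- A positive multiplicative function of at most polynomial growth, at most `M p` at the large primes `p` and with different
values at different large primes. -/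
structure Moderate (f : ℕ → ℕ) : Prop where
  mul : ∀ m n : ℕ, Nat.Coprime m n → f (m * n) = f m * f n
  pos : ∀ m : ℕ, 1 ≤ m → 1 ≤ f m
  growth : ∃ C D : ℕ, ∀ m : ℕ, 1 ≤ m → f m ≤ C * m ^ D
  prime : ∃ P M : ℕ, ∀ p : ℕ, P ≤ p → p.Prime → f p ≤ M * p ∧ ∀ q : ℕ, P ≤ q → q.Prime → f q = f p → q = p

/-- The steps of `G` are at least a positive constant, and `G` grows at most like `v ^ d`, `d ≥ 1`. -/
structure Expanding (G : ℕ → ℝ) (d : ℝ) : Prop where
  one_le : 1 ≤ d
  step : ∃ a : ℝ, 0 < a ∧ ∀ v : ℕ, 1 ≤ v → a ≤ G (v + 1) - G v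
  growth : ∃ C : ℝ, ∀ v : ℕ, 1 ≤ v → G v ≤ C * (v : ℝ) ^ d

open Classical in
/-- The proportion of the positive integers `m ≤ N` without the property `P` tends to `0`. -/
def AlmostAll (P : ℕ → Prop) : Prop :=
  Tendsto (fun N : ℕ => (((Icc 1 N).filter (fun m => ¬ P m)).card : ℝ) / N) atTop (𝓝 0)

open Classical in
/-- `P m m'` holds for 100% of the pairs `(m, m')`, in all boxes `[1, N] × [1, N']` with large sides. -/
def AlmostAllPairs (P : ℕ → ℕ → Prop) : Prop :=
  ∀ δ : ℝ, 0 < δ → ∃ N₀ : ℕ, ∀ N N' : ℕ, N₀ ≤ N → N₀ ≤ N' →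
    ((((Icc 1 N) ×ˢ (Icc 1 N')).filter (fun p => ¬ P p.1 p.2)).card : ℝ) ≤ δ * ((N : ℝ) * N')

/-- the value of `f` at the `k`-th iterate of Euler's function -/
def orb (f : ℕ → ℕ) (k m : ℕ) : ℕ := f (Nat.totient^[k] m)

theorem lm_of {f : ℕ → ℕ} (hf : Moderate f) : Pool.Agent.N733.TG.LM f := ⟨hf.mul, hf.pos, hf.growth, hf.prime⟩

theorem of_lm {f : ℕ → ℕ} (hf : Pool.Agent.N733.TG.LM f) : Moderate f := ⟨hf.mul, hf.pos, hf.growth, hf.prime⟩

theorem ex_of {G : ℕ → ℝ} {d : ℝ} (h : Expanding G d) : Pool.Agent.N733.TG.Expanding G d := ⟨h.one_le, h.step, h.growth⟩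

theorem aap_of {P : ℕ → ℕ → Prop} (h : Run7.h430.TW.Pairs.PairAA P) : AlmostAllPairs P := h

/-- **The Fermat-Catalan equation along orbits of Euler's function.** -/
theorem result :
    -- (1), (2): windows
    (∀ L : ℕ, ∃ c : ℝ, 0 < c ∧
      (∀ f : ℕ → ℕ, Moderate f → ∀ (F : ℕ → ℝ) (d : ℝ), Expanding F d → ∀ κ : ℝ, 0 ≤ κ → d * (1 - c) + κ < 1 →
        ∃ K : ℕ → ℕ, Tendsto K atTop atTop ∧ AlmostAll (fun m => ∀ k ≤ K m, ∀ A : ℕ,
          |(A : ℝ) - F (orb f k m)| ≤ (orb f k m : ℝ) ^ κ → ∀ Y : ℕ, 1 ≤ Y →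
            ({B : ℕ | 1 ≤ B ∧ B ≤ Y ∧ Bad L A B}.ncard : ℝ) ≤ 2 * (Y : ℝ) ^ (1 - c))) ∧
      (∀ f g : ℕ → ℕ, Moderate f → Moderate g → ∀ (F G : ℕ → ℝ) (d d' : ℝ), Expanding F d → Expanding G d' →
        ∀ κ : ℝ, 0 ≤ κ → d * (1 - c) + κ < 1 → d' * (1 - c) + κ < 1 →
        ∃ K : ℕ → ℕ, Tendsto K atTop atTop ∧ AlmostAllPairs (fun m m' => ∀ k ≤ K (min m m'), ∀ l ≤ K (min m m'),
          ∀ A B : ℕ, |(A : ℝ) - F (orb f k m)| ≤ (orb f k m : ℝ) ^ κ →
            |(B : ℝ) - G (orb g l m')| ≤ (orb g l m' : ℝ) ^ κ → ¬ Bad L A B))) ∧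
    -- (3): all constants tend to infinity
    (∀ f g : ℕ → ℕ, Moderate f → Moderate g → ∃ K : ℕ → ℕ, Tendsto K atTop atTop ∧
      AlmostAllPairs (fun m m' => ∀ k l a b : ℕ, ∀ h h' : ℤ, k ≤ K (min m m') → l ≤ K (min m m') →
        1 ≤ a → a ≤ K (min m m') → 1 ≤ b → b ≤ K (min m m') → |h| ≤ K (min m m') → |h'| ≤ K (min m m') → ∀ A B : ℕ,
        (A : ℤ) = a * orb f k m + h → (B : ℤ) = b * orb g l m' + h' → 3 ≤ A → Nat.Coprime A B →
        A ≤ B ^ K (min m m') → B ≤ A ^ K (min m m') → ∀ x y z C : ℕ,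
          (2 ∣ A * B ∨ ((min x y : ℕ) : ℝ) ≤ Real.exp (Real.log A ^ K (min m m'))) → ¬ Solves A B x y z C)) ∧
    (Moderate (fun m => m) ∧ Moderate Nat.totient ∧ Moderate (fun m => ∑ d ∈ m.divisors, d)) ∧
    ∀ α d : ℝ, 0 < α → 1 ≤ d → Expanding (fun v => α * (v : ℝ) ^ d) d := by
  refine ⟨fun L => ?_, fun f g hf hg => ?_,
    ⟨of_lm Pool.Agent.N760.IT.lm_id, of_lm Pool.Agent.N733.TG.lm_totient, of_lm Pool.Agent.N733.TG.lm_sigma⟩,
    fun α d hα hd => ?_⟩
  · obtain ⟨c, hc, h1, h2⟩ := Run7.h430.TW.Pairs.main L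
    refine ⟨c, hc, fun f hf F d hF κ hκ hd => ?_, fun f g hf hg F G d d' hF hG κ hκ hd hd' => ?_⟩
    · obtain ⟨K, hK, h3⟩ := h1 f (lm_of hf) F d (ex_of hF) κ hκ hd
      refine ⟨K, hK, Pool.Agent.N826.IT.Orb.almostAll_mono h3 (fun m hm k hk A hA Y hY => ?_)⟩
      refine le_trans (le_of_eq ?_) (hm k hk A hA Y hY)
      classical
      unfold Run7.h430.TW.Pairs.cnt
      rw [← Set.ncard_coe_finset]
      congr 2
      ext B
      rw [mem_coe, mem_filter, mem_Icc, and_assoc]
      rfl
    · obtain ⟨K, hK, h3⟩ := Run7.h430.TW.Pairs.pairs_windows L h2 (lm_of hf) (lm_of hg) (ex_of hF) (ex_of hG) hκ hd hd'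
      exact ⟨K, hK, aap_of (h3.mono (fun m m' hm k hk l hl A B hA hB hbad => hm k hk l hl A B hA hB hbad))⟩
  · obtain ⟨K, hK, h3⟩ := Run7.h430.TW.Pairs.pairs_slow (lm_of hf) (lm_of hg)
    refine ⟨K, hK, aap_of (h3.mono ?_)⟩
    intro m m' hm k l a b h h' h1 h2 ha1 ha hb1 hb hh hh' A B hA hB hA3 hco hAB hBA x y z C hcase hs
    exact hm k l a b h h' h1 h2 ha1 ha hb1 hb hh hh' A B hA hB ⟨hA3, hco, hAB, hBA, x, y, z, C, hs, hcase⟩
  · obtain ⟨h1, h2, h3⟩ := Pool.Agent.N733.TG.expanding_pow hα hd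
    exact ⟨h1, h2, h3⟩

end Pool.Agent.Results.MP_2738db_nt.PairsOfOrbits
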