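import Mathlib
import Pool.Agent.Run7.h492.EW.Gen

/-!
# The Fermat-Catalan equation along random products of matrices: the Calkin-Wilf tree and continued
fractions with partial quotients from a finite alphabet

For positive coprime integers `x`, `y` let `TwoBases W x y` say that `x` and `y` are two of the three
bases of a solution of

`x ^ p + y ^ q = z ^ r`, `x ^ p + z ^ r = y ^ q` or `y ^ q + z ^ r = x ^ p`

with third base `z ≤ W`, where all exponents `p, q, r ≥ 2` are free, except that `r ≥ 3` if `p` and `q`
are both even.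

Let `S` be a finite set of `2 × 2` matrices with nonnegative integer entries and determinant `1` or
`-1` which contains

* the two matrices `(1 0; 1 1)` and `(1 1; 0 1)`, that is the steps `(x, y) ↦ (x, x + y)` and
  `(x, y) ↦ (x + y, y)` of the Calkin-Wilf tree, or
* the matrices `(0 1; 1 a)`, that is the steps `(x, y) ↦ (y, x + a y)` of the continued fraction
  algorithm, for all `a` in a set `A` of positive integers which is not contained in a residue class
  modulo any `d ≥ 2` (for example `A = {1, 2}`),

and let `v₀` be a pair of coprime nonnegative integers.  Let `(x, y)ᵗ = g₁ g₂ ⋯ g_k v₀` be a random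
product, where the `g_t ∈ S` are independent, and each of them takes each value in `S` with probability
at least `η`; the laws may be different for different `t`.  There is `κ > 0`, depending only on
`S`, `v₀` and `η`, such that the probability that `(x, y)` is `TwoBases (exp (exp (κ k)))` tends to zero,
uniformly in the laws.  (The pairs have size `exp (O (k))`, the third base may be as large as
`exp (exp (κ k))`.)

If `S` consists of the first two matrices and `v₀ = (1, 1)`, then `(x, y)` is a random pair of depth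
`k` in the Calkin-Wilf tree, which contains every pair of positive coprime integers exactly once; with
fair coins these are the pairs of consecutive terms of Stern's diatomic sequence.  If `S` consists of
the matrices `(0 1; 1 a)`, `a ∈ A`, and `v₀ = (0, 1)`, then `x / y = [0; a₁, …, a_k]` is a
random fraction with partial quotients from `A`; these pairs `(x, y)` form a thin set.

Proof.  The matrices of `S` act on the pairs modulo `M` which generate the unit ideal as
permutations.  Every such pair is reached from every other one by a word of one and the same length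
(`Pool.Agent.Run7.h492.EW.mixing`, and the Euclidean algorithm in `ℤ / M`), so that a random word
equidistributes the class of the pair modulo `M`, uniformly in the laws of the letters.  This transports
the residue sieve for pairs of bases of the starting library (`Pool.Agent.H374R2`, Beal's equation with
one given exponent), which settles the bounded exponents `r`.  For the large exponents `r` the theorem
on lopsided pairs (`Pool.Agent.N741`, linear forms in logarithms) leaves at most `N ^ ε` pairs of bases
up to `N`, and no pair is taken with probability larger than `C ρ ^ k`, as there are two words of the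
same length which take the closed positive quadrant to disjoint cones.
-/

set_option autoImplicit false

namespace Pool.Agent.Results.MP_2738db_nt.RandomEuclideanWords

open Finset Matrix

/-- `x` and `y` are coprime and two of the three bases of a solution with a third base at most `W`;
all exponents are at least two, the third one is at least three if `p` and `q` are both even. -/
def TwoBases (W : ℝ) (x y : ℕ) : Prop := ∃ z p q r : ℕ, 1 ≤ x ∧ 1 ≤ y ∧ Nat.Coprime x y ∧ 1 ≤ z ∧
  (z : ℝ) ≤ W ∧ 2 ≤ p ∧ 2 ≤ q ∧ 2 ≤ r ∧ (3 ≤ r ∨ ¬ 2 ∣ p ∨ ¬ 2 ∣ q) ∧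
  (x ^ p + y ^ q = z ^ r ∨ x ^ p + z ^ r = y ^ q ∨ y ^ q + z ^ r = x ^ p)

/-- `det g = 1` or `det g = -1` -/
def Unimodular (g : Matrix (Fin 2) (Fin 2) ℕ) : Prop :=
  g 0 0 * g 1 1 = g 0 1 * g 1 0 + 1 ∨ g 0 0 * g 1 1 + 1 = g 0 1 * g 1 0

/-- The set of matrices contains the two steps of the Calkin-Wilf tree, or the steps of the continued
fraction algorithm for the digits in a set `A` which is not contained in a residue class modulo any
`d ≥ 2`. -/
def Euclidean (S : Finset (Matrix (Fin 2) (Fin 2) ℕ)) : Prop :=
  (!![1, 0; 1, 1] ∈ S ∧ !![1, 1; 0, 1] ∈ S) ∨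
  ∃ A : Finset ℕ, (∀ a ∈ A, 1 ≤ a) ∧
    (∀ d : ℕ, (∀ a ∈ A, ∀ b ∈ A, (d : ℤ) ∣ (a : ℤ) - b) → d = 1) ∧ ∀ a ∈ A, !![0, 1; 1, a] ∈ S

/-- the letter of a matrix -/
def letter (g : Matrix (Fin 2) (Fin 2) ℕ) (h : Unimodular g) : Pool.Agent.Run7.h492.EW.Letter :=
  ⟨g 0 0, g 0 1, g 1 0, g 1 1, by
    rcases h with h | h
    · left
      have : (g 0 0 * g 1 1 : ℤ) = g 0 1 * g 1 0 + 1 := by exact_mod_cast h
      linarith
    · right
      have : (g 0 0 * g 1 1 + 1 : ℤ) = g 0 1 * g 1 0 := by exact_mod_cast h
      linarith⟩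

theorem vec_eq {S : Finset (Matrix (Fin 2) (Fin 2) ℕ)} (h : ∀ g ∈ S, Unimodular g)
    (v₀ : Fin 2 → ℕ) (l : List {g // g ∈ S}) :
    Pool.Agent.Run7.h492.EW.vec (fun g : {g // g ∈ S} => letter g.1 (h g.1 g.2)) (v₀ 0, v₀ 1) l =
      (((l.map Subtype.val).prod *ᵥ v₀) 0, ((l.map Subtype.val).prod *ᵥ v₀) 1) := by
  induction l with
  | nil => simp [Pool.Agent.Run7.h492.EW.vec]
  | cons g l ih =>
    rw [Pool.Agent.Run7.h492.EW.vec, ih, List.map_cons, List.prod_cons, ← Matrix.mulVec_mulVec]
    set u := (l.map Subtype.val).prod *ᵥ v₀ with hu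
    have hmul : ∀ i, (g.1 *ᵥ u) i = g.1 i 0 * u 0 + g.1 i 1 * u 1 := by
      intro i
      simp [Matrix.mulVec, dotProduct, Fin.sum_univ_two]
    rw [hmul, hmul]
    simp [Pool.Agent.Run7.h492.EW.Letter.ap, letter]

open Classical in
/-- For one hundred per cent of the products `g₁ ⋯ g_k` of matrices from a Euclidean set `S`, with
respect to every product measure giving each matrix mass at least `η`, the entries `x`, `y` of the
vector `g₁ ⋯ g_k v₀` are not two of the bases of a solution with third base at most
`exp (exp (κ k))`. -/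
theorem result (S : Finset (Matrix (Fin 2) (Fin 2) ℕ)) (hdet : ∀ g ∈ S, Unimodular g)
    (hS : Euclidean S) (v₀ : Fin 2 → ℕ) (hv₀ : Nat.Coprime (v₀ 0) (v₀ 1)) (η : ℝ) (hη : 0 < η) :
    ∃ κ : ℝ, 0 < κ ∧ ∀ ε : ℝ, 0 < ε → ∃ k₀ : ℕ, ∀ k : ℕ, k₀ ≤ k →
      ∀ p : Fin k → {g // g ∈ S} → ℝ, (∀ t g, η ≤ p t g) → (∀ t, ∑ g, p t g = 1) →
      ∑ w ∈ Finset.univ.filter (fun w : Fin k → {g // g ∈ S} =>
          TwoBases (Real.exp (Real.exp (κ * k)))
            (((List.ofFn fun t => (w t).1).prod *ᵥ v₀) 0)
            (((List.ofFn fun t => (w t).1).prod *ᵥ v₀) 1)), ∏ t, p t (w t) ≤ ε := by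
  have hsys : Pool.Agent.Run7.h492.EW.Sys
      (fun g : {g // g ∈ S} => letter g.1 (hdet g.1 g.2)) (v₀ 0, v₀ 1) := by
    apply Pool.Agent.Run7.h492.EW.sys_of _ _ hv₀
    rcases hS with ⟨h1, h2⟩ | ⟨A, h1, h2, h3⟩
    · left
      exact ⟨⟨_, h1⟩, ⟨_, h2⟩, by simp [letter, Pool.Agent.Run7.h492.EW.cw],
        by simp [letter, Pool.Agent.Run7.h492.EW.cw]⟩
    · right
      exact ⟨A, h1, h2, fun a ha => ⟨⟨_, h3 a ha⟩, by simp [letter, Pool.Agent.Run7.h492.EW.cf]⟩⟩
  obtain ⟨κ, hκ, h⟩ := Pool.Agent.Run7.h492.EW.main _ _ hsys η hη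
  refine ⟨κ, hκ, fun ε hε => ?_⟩
  obtain ⟨k₀, hk₀⟩ := h ε hε
  refine ⟨k₀, fun k hk p hp1 hp2 => ?_⟩
  refine hk₀ k hk p (fun t => ⟨hp1 t, hp2 t⟩) _ ?_
  intro w hw
  rw [vec_eq hdet, List.map_ofFn]
  exact hw

end Pool.Agent.Results.MP_2738db_nt.RandomEuclideanWords
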