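import Mathlib
import Pool.Agent.Run7.h880.PairsF

/-!
# The Fermat-Catalan equation with a small term: subpolynomially many solutions

Let `3 ≤ X` and `2 ≤ H ≤ X`. There are at most

`exp (2355 (log X) ^ (1/3) (log (H log X)) ^ (2/3))`

triples `(A, B, C)` of positive integers with `A + B = C ≤ X`, `A ≤ H`, such that `B` and `C` are
coprime perfect powers `b ^ n`, `c ^ k`. All exponents are free, and `A` need not be a perfect power; so
the theorem bounds the number of the value triples `(a ^ m, b ^ n, c ^ k)` of the solutions of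
`a ^ m + b ^ n = c ^ k ≤ X` with a term `a ^ m ≤ H` (or `b ^ n ≤ H`). For example it is
`exp ((log X) ^ (1/3 + o(1)))` if `H` is a power of `log X`, and `exp (o (log X))` if `log H = o (log X)`.

Proof. We may take prime exponents. Let `T` be a parameter.

* Exponents `≤ T`: the equation is `z ^ a - d = w ^ l` with a prime `a ≤ T`, `0 < |d| ≤ H` and `w` prime to
  `d`. In the field generated by a root `α` of `t ^ a = d` of degree at least `2` (which is a cyclotomic
  field if `d` is an `a`-th power) the ideal of `z - α` is an `l`-th power up to the primes above `a`. The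
  number of the classes is at most `(a |d|) ^ (3 a) l ^ (3 a)` (ideals of small norm, units modulo `l`-th
  powers, primes above `a`), and in a class the large solutions satisfy `z' ≥ 2 z`. For `a = 2` and a square
  `d` this is replaced by an elementary argument. Altogether there are at most
  `(T H) ^ (15 T) (log₂ X + 2) ^ (4 T)` pairs.
* Both exponents `p ≠ q` greater than `T ≥ 4 (E - 1)`: for a given distance `d` the `E ^ 2` products
  `x ^ i y ^ j`, `i, j < E`, of the bases `x = t ^ (1/p)`, `y = (t + d) ^ (1/q)` have a vanishing determinant at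
  any `E ^ 2` integral points of an interval of length `t / q'`, `q' ≈ 9 X ^ (1 / E ^ 2)`; this gives a linear
  relation, and by a zero estimate it has at most `2 p q` zeros.

Finally `T ≈ 4 E ≈ (log X / log (H log X)) ^ (1/3)`.
-/

set_option autoImplicit false

namespace Pool.Agent.Results.MP_2738db_nt.SmallTerm

/-- `n` is `x ^ e` with `x ≥ 1` and `e ≥ 2` -/
def PerfectPower (n : ℕ) : Prop := ∃ x e : ℕ, 1 ≤ x ∧ 2 ≤ e ∧ x ^ e = n

/-- the triples `(A, B, C)` of positive integers with `A + B = C ≤ X` and `A ≤ H` such that `B` and `C` are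
coprime perfect powers -/
def Triples (X H : ℕ) : Set (ℕ × ℕ × ℕ) :=
  {t | t.1 + t.2.1 = t.2.2 ∧ 1 ≤ t.1 ∧ t.1 ≤ H ∧ t.2.2 ≤ X ∧ Nat.Coprime t.2.1 t.2.2 ∧
    PerfectPower t.2.1 ∧ PerfectPower t.2.2}

/-- At most `exp (2355 (log X) ^ (1/3) (log (H log X)) ^ (2/3))` triples of coprime positive integers
`(A, B, C)` satisfy `A + B = C ≤ X`, `A ≤ H` and have perfect powers `B` and `C`. -/
theorem result (X H : ℕ) (hX : 3 ≤ X) (hH : 2 ≤ H) (hHX : H ≤ X) :
    (Triples X H).Finite ∧ ((Triples X H).ncard : ℝ) ≤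
      Real.exp (2355 * (Real.log X) ^ ((1 : ℝ) / 3) * (Real.log (H * Real.log X)) ^ ((2 : ℝ) / 3)) := by
  obtain ⟨h1, h2⟩ := Pool.Agent.Run7.h880.pairs_final hX hH hHX
  have hinj : Set.InjOn (fun t : ℕ × ℕ × ℕ => (t.2.1, t.2.2)) (Triples X H) := by
    rintro ⟨a, b, c⟩ ht ⟨a', b', c'⟩ ht' h
    obtain ⟨g1, -⟩ := ht
    obtain ⟨g1', -⟩ := ht'
    simp only [Prod.mk.injEq] at g1 g1' h ⊢
    omega
  have hmaps : ∀ t ∈ Triples X H, (t.2.1, t.2.2) ∈ Pool.Agent.Run7.h880.PS X H := by
    rintro ⟨a, b, c⟩ ⟨g1, g2, g3, g4, g5, ⟨x, e, hx, he, hxe⟩, ⟨y, f, hy, hf, hyf⟩⟩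
    simp only at g1 g2 g3 g4 g5 hxe hyf
    exact ⟨by simp only; omega, g4, by simp only; omega, g5, ⟨x, e, he, hx, hxe⟩,
      ⟨y, f, hf, hy, hyf⟩⟩
  refine ⟨Set.Finite.of_injOn hmaps hinj h1, ?_⟩
  have h3 : (Triples X H).ncard ≤ (Pool.Agent.Run7.h880.PS X H).ncard :=
    Set.ncard_le_ncard_of_injOn _ hmaps hinj h1
  exact ((Nat.cast_le (α := ℝ)).2 h3).trans h2

end Pool.Agent.Results.MP_2738db_nt.SmallTerm
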